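import Pool.Agent.Y106.CG.TopMurre

/-!
# Murre's conjecture (B) for the fibres of a family

Let `g : Z ⟶ S` be a morphism of smooth projective varieties over a field whose cohomology has the
decomposition into perverse pieces given by the decomposition theorem (`PerverseDecomposition`).
Suppose that the total space `Z` satisfies the standard conjecture B, that the homologically trivial
self-correspondences of degree zero of `Z` are nilpotent, and that `Z` has a Chow-Kunneth
decomposition `π`. No condition of this kind is imposed on the fibres. Then: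

* each smooth fibre `F` has a system `ρ` of projectors onto the fixed parts of the groups `H^j(F)`, and
  for each such system the motive `(F, ρ_j)` is a direct factor of `h^j(Z) = (Z, π_j)`;
* if `π` satisfies (B), then `ρ` satisfies (B);
* if moreover for `j ≠ dim F` the space `H^j(F)` is spanned by the fixed part and the classes of
  algebraic cycles, then `F` has a Chow-Kunneth decomposition `π'` which satisfies (B) if and only if
  the middle projector kills `CH^l(F)` for `2 l < dim F`; this is so if `dim F ≤ 4`.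
-/

open CategoryTheory AlgebraicGeometry

universe u v

namespace Pool.Agent.Results.MP_d6e134_ag.FibresOfFamilies

open Pool.Agent.H914 Pool.Agent.H914.VarClass Pool.Agent.H914.VarClass.Obj Pool.Agent.W498.Dom
  Pool.Agent.Y106.CG

theorem result {k : Type u} [Field k] {𝒱 : VarClass k} {ops : CycleOps 𝒱}
    {W : WeilCohomology.{u, v} ops} {R : CycRel 𝒱} (hR : IsChow W R)
    {Z S : 𝒱.Obj} {g : Z ⟶ S} {G : S.Cycles} {E D : Z.Cycles}
    (hG : S.IsCyc 1 G) (hE : Z.IsCyc 1 E) (Q : PerverseDecomposition W g G E)
    (hB : StandardB W Z D) (hN : NilHomTrivial W R Z)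
    {π : ℕ → (Z.prod Z).Cycles} (hπ : IsCKDec W R Z π) :
    (∀ (F : 𝒱.Obj) (i : F ⟶ Z), IsSmoothFibre Q i → ∃ ρ, IsFixedSystem W R i ρ) ∧
    (∀ (F : 𝒱.Obj) (i : F ⟶ Z) (ρ : ℕ → (F.prod F).Cycles), IsSmoothFibre Q i →
      IsFixedSystem W R i ρ → ∀ j, IsDirectFactor ops R (ρ j) (π j)) ∧
    (MurreB ops R π →
      (∀ (F : 𝒱.Obj) (i : F ⟶ Z) (ρ : ℕ → (F.prod F).Cycles), IsSmoothFibre Q i →
        IsFixedSystem W R i ρ → MurreB ops R ρ) ∧
      ∀ (F : 𝒱.Obj) (i : F ⟶ Z), IsSmoothFibre Q i → FixedOrAlgebraic W i →
        ∃ π', IsCKDec W R F π' ∧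
          (MurreB ops R π' ↔
            ∀ l z, 2 * l < F.dim → F.IsCyc l z → R.Eqv (image ops (π' F.dim) z) 0) ∧
          (F.dim ≤ 4 → PicardProperty R W F → MurreB ops R π')) :=
  Pool.Agent.Y106.CG.topB hR hG hE Q hB hN hπ

end Pool.Agent.Results.MP_d6e134_ag.FibresOfFamilies
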