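import Pool.Agent.Y110.Main

/-!
# Murre's conjecture (B) and finite-dimensional motives

`𝒱` is any class of smooth projective geometrically irreducible varieties over the field `k` closed
under products (for example all of them, or the powers of one variety), `C` the Chow groups with
rational coefficients (in the form of their formal properties, `IsChowProj`) and `H` a Weil
cohomology theory (`IsWeilProj`, `GradedCommutative`).
-/

open CategoryTheory AlgebraicGeometry

set_option autoImplicit false

universe u v w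

namespace Pool.Agent.Results.MP_d6e134_ag.KimuraFiniteness

open Pool.Agent.H914 Pool.Agent.W492.BB Pool.Agent.TH133 Pool.Agent.TH829.Kim Pool.Agent.Y110

/-- Murre's conjecture (B), for all varieties and all their Chow-Kunneth decompositions, holds if
and only if every variety with a Chow-Kunneth decomposition has a finite-dimensional motive in the
sense of Kimura and O'Sullivan (equivalently: a motive without phantoms) and satisfies (B) for one
Chow-Kunneth decomposition. It is also equivalent to the conjunction of Murre's independence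
conjecture (C) and of the vanishing of `F^(i+1) CH^i(X)` for one decomposition. -/
theorem result {k : Type u} [Field k] {𝒱 : VarClass k} (C : TheoryData.{u, v, 0} 𝒱 ℚ)
    [IsChowProj C] {K : Type w} [Field K] (H : WeilTheoryData.{u, v, w} C K) [IsWeilProj H]
    (hg : GradedCommutative H) :
    List.TFAE [∀ (X : 𝒱.Obj) (π : ℕ → C.A (X.prod X)), IsCK H X π → MurreBFor C π,
      ∀ X : 𝒱.Obj, (∃ π, IsCK H X π) → IsKimuraFinite C (ratFam C) X ∧
        ∃ π, IsCK H X π ∧ MurreBFor C π,
      ∀ X : 𝒱.Obj, (∃ π, IsCK H X π) → NoPhantoms H X ∧ ∃ π, IsCK H X π ∧ MurreBFor C π,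
      (∀ X : 𝒱.Obj, Independent H X) ∧
        ∀ X : 𝒱.Obj, (∃ π, IsCK H X π) → ∃ π, IsCK H X π ∧ VanishingFor C π] := by
  tfae_have 1 → 4 := by
    intro h
    refine ⟨C_of_zeroIsAll fun X i π hπ => (h X π hπ i).1, fun X hX => ?_⟩
    obtain ⟨π, hπ⟩ := hX
    exact ⟨π, hπ, fun i => (h X π hπ i).2⟩
  tfae_have 4 → 1 := by
    rintro ⟨h1, h2⟩ X π' hπ' i
    obtain ⟨π, hπ, hv⟩ := h2 X ⟨π', hπ'⟩
    refine ⟨zeroIsAll_of_C h1 X i π' hπ', ?_⟩
    rw [h1 X π' π hπ' hπ]
    exact hv i
  tfae_have 1 → 2 := by
    intro h X hX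
    refine ⟨kimura_of_noPhantoms hg (noPhantoms_of_C (C_of_zeroIsAll
      fun X i π hπ => (h X π hπ i).1)) X hX, ?_⟩
    obtain ⟨π, hπ⟩ := hX
    exact ⟨π, hπ, h X π hπ⟩
  tfae_have 2 → 3 := fun h X hX => ⟨noPhantoms_of_kimura (h X hX).1, (h X hX).2⟩
  tfae_have 3 → 4 := by
    intro h
    refine ⟨?_, fun X hX => ?_⟩
    · apply C_of_zeroIsAll
      apply zeroIsAll_of_kimura
      intro X hX
      obtain ⟨π, hπ, hB⟩ := (h X hX).2
      exact ⟨kimura_of_noPhantoms hg (fun Y hY => (h Y hY).1) X hX, π, hπ, fun i => (hB i).1⟩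
    · obtain ⟨π, hπ, hB⟩ := (h X hX).2
      exact ⟨π, hπ, fun i => (hB i).2⟩
  tfae_finish

end Pool.Agent.Results.MP_d6e134_ag.KimuraFiniteness
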