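import Pool.Agent.Y107.MC.Thm

/-!
# Murre's conjecture (B) and Chow-Kunneth decompositions of large coniveau

`𝒱` is a class of smooth projective geometrically irreducible varieties over the field `k` closed
under products (for example all of them), `C` the Chow groups with rational coefficients (in the
form of their formal properties, `IsChowProj`) and `H` a Weil cohomology theory (`IsWeilProj`) for
which the theory of the Picard variety holds (`PicardProperty`).

Let `π` be a Chow-Kunneth decomposition of `X`. If, for every `i`, the motive `(X, π_i)` is a direct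
factor of a sum of motives `h(Z)(-m)` with `m ≥ c_i ≥ (i - 4) / 2`, and, for `i < dim X`, of a sum of
motives `h(Z)(-m)` with `dim Z + m ≤ i`, then (B) holds for `π`. These conditions hold if
`dim X ≤ 4` and `π` satisfies motivic hard Lefschetz for a very ample divisor. By the theorem of
`MP_8a7054_ag.LefschetzEquation` such a decomposition exists as soon as a linear equation in
`CH^*(X × X)` has a solution.
-/

open CategoryTheory AlgebraicGeometry

set_option autoImplicit false

universe u v w

namespace Pool.Agent.Results.MP_d6e134_ag.LefschetzFourfolds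

open Pool.Agent.H914 Pool.Agent.W492.BB Pool.Agent.TH133 Pool.Agent.Y107 Pool.Agent.Y107.MC
  Pool.Agent.Y107.SJ

/-- Murre's conjecture (B) for a Chow-Kunneth decomposition `π` holds if the motives `(X, π_i)` have
Chow coniveau at least `(i - 4) / 2` and, for `i < dim X`, dimension at most `i`. In particular it
holds for all Chow-Kunneth decompositions of varieties of dimension at most four which satisfy
motivic hard Lefschetz, and such a decomposition exists if `L = [L, [L, z]]` is solvable. -/
theorem result {k : Type u} [Field k] {𝒱 : VarClass k} (C : TheoryData.{u, v, 0} 𝒱 ℚ)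
    [IsChowProj C] {K : Type w} [Field K] (H : WeilTheoryData.{u, v, w} C K) [IsWeilProj H]
    (hPic : PicardProperty H) (X : 𝒱.Obj) :
    (∀ π, IsCK H X π → ∀ c : ℕ → ℕ,
      (∀ i ≤ 2 * X.dim, ChowConiveau C (c i) (π i) ∧ i ≤ 2 * c i + 4) →
      (∀ i < X.dim, DimensionAtMost C i (π i)) → SatisfiesB C π) ∧
    (X.dim ≤ 4 → ∀ L : C.A (X.prod X), C.Deg ((X.dim : ℤ) + 1) L → FactorsThroughSections C L →
      (∀ π, IsCK H X π → MotivicLefschetz C L π → SatisfiesB C π) ∧
      (tp C L = L → HardLefschetzCor H X L → InSquare C L →
        ∃ π, SelfDualLefschetz H L π ∧ SatisfiesB C π)) := by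
  refine ⟨fun π hπ c hc hd j => ⟨?_, murreB' hπ hd j⟩, fun hd L hL hs => ⟨fun π hπ h j =>
    ⟨murreB_lefschetz hL hPic hd hπ h j, murreB'_lefschetz hs hπ h j⟩, fun htp hHL hS =>
    exists_satisfiesB hPic hd hL htp hHL hs hS⟩⟩
  exact murreB hπ hPic (fun i hi => (hc i hi).1) (fun i hi => (hc i hi).2) j

end Pool.Agent.Results.MP_d6e134_ag.LefschetzFourfolds
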