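import Pool.Agent.Y148.MZ.Final

/-!
# Murre's conjecture (B) is a statement on the middle codimension of rational varieties

`𝒱` is the class of all smooth projective varieties over `k` (the field of complex numbers, for
example), `C` the Chow groups with rational coefficients (in the form of their formal properties,
`IsChowProj`), `H` a graded commutative Weil cohomology theory (`IsWeilProj`,
`GradedCommutative`). The geometric input consists of the hard Lefschetz theorem and the
existence of linear sections and of general hypersurface sections (`HasHyperplaneSections`), and of
a class `Rat` of varieties, closed under products, such that for every `X` there are an `R` in `Rat`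
and a `c` with `dim R = dim X + 2c` such that `h(X)(-c)` is a direct summand of `h(R)`
(`IsMiddleSummand`). All rational varieties form such a class: blow up `X` in a projective space of
dimension `dim X + 2c`.

The following are equivalent:

1. all varieties `X` have Chow-Kunneth decompositions, and Murre's conjecture (B) holds for all
   of them: `F^0 CH^j(X) = CH^j(X)` and `F^(j+1) CH^j(X) = 0` for all `j`;
2. all varieties `X` have Chow-Kunneth decompositions, and the filtration does not depend on the
   decomposition (Murre's conjecture (C));
3. every `R` in `Rat` has a Chow-Kunneth decomposition, and, if `dim R = 2j`, the group
   `F^0 CH^j(R)` is `CH^j(R)` for all of them;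
4. the Kunneth standard conjecture holds for the varieties in `Rat` and, if `R` in `Rat` has the
   dimension `2j`, every self-correspondence of degree zero of `R` which is homologically trivial or
   homologically equivalent to the projector onto the `H^i(R)` with `i > 2j` acts locally
   nilpotently on `CH^j(R)`;
5. the Kunneth standard conjecture holds and, for all `X` of dimension `2j`, all
   self-correspondences of degree zero of `X` which act as zero on `H^i(X)` for `i ≤ 2j` act
   locally nilpotently on `CH^j(X)`.

So the second half `F^(j+1) CH^j = 0` of (B) is a consequence of the first half, which is only needed
for the middle codimension of rational varieties.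

Proof of 3 ⇒ 4 ⇒ 1. By 3 for `R × R` the correspondences from `R` to `R` do not raise weights; so
there are no phantoms on the powers of `R`, the motive of `R` is finite-dimensional, and its
homologically trivial self-correspondences are nilpotent. If `L` is the sum of the projectors of
weight at most `2j`, a correspondence `Γ` as in 4 or 5 acts on `CH^j` as the homologically trivial
correspondence `L ∘ Γ ∘ L`. Conversely 4 passes to middle summands: for `X × X` it gives the nilpotence
of the homologically trivial self-correspondences of `X`, so that the Kunneth projectors lift, and,
completing the sum of the projectors of weight greater than `2j` of `X` to a correspondence of `R`,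
it gives `F^0 CH^j(X) = CH^j(X)` if `dim X = 2j`. This is (B) on `X × X` in the middle codimension,
so that (C) holds for `X`, and (C) implies the first half of (B). The Kunneth conjecture and
general sections make `h^m(X)` for `m ≤ dim X`, up to homologically trivial (hence nilpotent)
correspondences, a direct summand of the motive of a variety of dimension `m`, on which `CH^j`
vanishes for `j > m`: this is the second half.
-/

open CategoryTheory AlgebraicGeometry

set_option autoImplicit false

universe u v w

namespace Pool.Agent.Results.MP_d6e134_ag.MiddleCodimension

open Pool.Agent.H914 Pool.Agent.W492.BB Pool.Agent.Y148.BS
  Pool.Agent.Y148.SS Pool.Agent.Y148.KL Pool.Agent.Y148.MN Pool.Agent.Y148.MZ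

open Pool.Agent.TH133 hiding MurreC

/-- The following are equivalent: (A) and (B) hold for all varieties; (A) and (C) hold for all
varieties; (A) and, in the middle codimension, the first half of (B) hold for the varieties in `Rat`
(all rational varieties, for example); the Kunneth standard conjecture holds for the varieties in
`Rat`, and the self-correspondences which are homologically equivalent to zero or to the projector
onto the cohomology above the middle are locally nilpotent on the cycles of middle codimension; the
Kunneth standard conjecture holds and the self-correspondences which act as zero on the
cohomology up to the middle are locally nilpotent on the cycles of middle codimension. -/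
theorem result {k : Type u} [Field k] {𝒱 : VarClass k} (C : TheoryData.{u, v, 0} 𝒱 ℚ)
    [IsChowProj C] {K : Type w} [Field K] (H : WeilTheoryData.{u, v, w} C K) [IsWeilProj H]
    (hg : Pool.Agent.Y110.GradedCommutative H) (A : ∀ X : 𝒱.Obj, C.A X → Prop) (hA : HasHyperplaneSections H A)
    (Rat : 𝒱.Obj → Prop) (hprod : ∀ X Y, Rat X → Rat Y → Rat (X.prod Y))
    (hRat : ∀ X : 𝒱.Obj, ∃ R, Rat R ∧ IsMiddleSummand C X R) :
    List.TFAE [
      ∀ X : 𝒱.Obj, MurreA H X ∧ MurreB H X,
      ∀ X : 𝒱.Obj, MurreA H X ∧ MurreC H X,
      ∀ R, Rat R → MurreA H R ∧ MiddleZeroIsAll H R,
      ∀ R, Rat R → KunnethFor H R ∧ NilpotentInMiddle H R,
      KunnethConjecture H ∧ ∀ X : 𝒱.Obj, NilpotentIfKills H X] :=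
  middleZero_tfae hg hA Rat hprod hRat

end Pool.Agent.Results.MP_d6e134_ag.MiddleCodimension
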